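import Pool.Agent.W_MP_8d7136_h58.FinL
import Pool.Agent.W_MP_8d7136_h58.KFirst
import Pool.Agent.W_MP_8d7136_h58s.Stmt

set_option autoImplicit false

open Pool.Agent.W8d7136s

namespace Pool.Agent.Results.MP_8d7136_an.NonSeparableCalkin

/-- There are a first countable compact Hausdorff space `K` with `C(K)` non-separable and an
infinite-dimensional separable complex Banach space `X` such that `C(K)` is isomorphic, as a unital
Banach algebra, to the Calkin algebra `L(X)/K(X)`. -/
theorem result :
    ∃ (K : Type) (_ : TopologicalSpace K) (_ : CompactSpace K) (_ : T2Space K)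
      (X : Type) (_ : NormedAddCommGroup X) (_ : NormedSpace ℂ X) (_ : CompleteSpace X),
      FirstCountableTopology K ∧ ¬ TopologicalSpace.SeparableSpace C(K, ℂ) ∧
        ¬ FiniteDimensional ℂ X ∧ TopologicalSpace.SeparableSpace X ∧
        IsCalkinAlgebraOf C(K, ℂ) X := by
  obtain ⟨Φ, hΦ⟩ := Pool.Agent.W8d7136.quot_iso Pool.Agent.W8d7136.Theta
    Pool.Agent.W8d7136.Theta_continuous Pool.Agent.W8d7136.Theta_surjective
    Pool.Agent.W8d7136.Theta_eq_zero
  refine ⟨Pool.Agent.W8d7136.KK, inferInstance, inferInstance, inferInstance,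
    Pool.Agent.W8d7136.X, inferInstance, inferInstance, inferInstance,
    inferInstance, Pool.Agent.W8d7136.KK_nonsep, Pool.Agent.W8d7136.X_inf,
    Pool.Agent.W8d7136.X_sep, Φ, ?_, ?_⟩
  · rw [cls, hΦ, map_one]
  · intro S T
    rw [cls, cls, cls, hΦ, hΦ, hΦ, map_mul]

end Pool.Agent.Results.MP_8d7136_an.NonSeparableCalkin
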