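import Pool.Agent.W_MP_8d7136_h58b.Fin
import Pool.Agent.W_MP_8d7136_h58s.Stmt

set_option autoImplicit false

open Pool.Agent.W8d7136s

namespace Pool.Agent.Results.MP_8d7136_an.StoneCechCalkin

/-- There is an infinite-dimensional separable complex Banach space `X` such that `C(βℕ)` is isometrically
isomorphic, as a unital Banach algebra, to the Calkin algebra `L(X)/K(X)`. -/
theorem result :
    ∃ (X : Type) (_ : NormedAddCommGroup X) (_ : NormedSpace ℂ X) (_ : CompleteSpace X),
      ¬ FiniteDimensional ℂ X ∧ TopologicalSpace.SeparableSpace X ∧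
        IsIsometricCalkinAlgebraOf C(StoneCech ℕ, ℂ) X := by
  obtain ⟨Φ, hΦ⟩ := Pool.Agent.W8d7136b.exists_iso
  refine ⟨Pool.Agent.W8d7136b.X, inferInstance, inferInstance, inferInstance,
    Pool.Agent.W8d7136b.X_inf, Pool.Agent.W8d7136b.X_sep, Φ, ?_, ?_⟩
  · refine Pool.Agent.W8d7136b.BS_ext fun n => ?_
    rw [cls, hΦ, Pool.Agent.W8d7136b.lam_one]
    rfl
  · intro S T
    refine Pool.Agent.W8d7136b.BS_ext fun n => ?_
    rw [cls, cls, cls, hΦ, Pool.Agent.W8d7136b.lam_mul, ContinuousMap.mul_apply, hΦ, hΦ]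

end Pool.Agent.Results.MP_8d7136_an.StoneCechCalkin
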