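import Pool.Agent.W_MP_8d7136_an.Main

set_option autoImplicit false

open Pool.Agent.W_MP_8d7136_an

namespace Pool.Agent.Results.MP_8d7136_an.UnconditionalCase

universe u v

/-- Let `X` be a complex Banach space with an infinite-dimensional complemented subspace that has an
unconditional finite-dimensional decomposition.  If `C(K)` is the Calkin algebra of `X` then a
clopen subset of `K` maps continuously onto the space of free ultrafilters on the naturals and `K`
is not ccc.  In particular `C(βℕ)` is not the Calkin algebra of `X`. -/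
theorem result :
    (∀ (X : Type u) [NormedAddCommGroup X] [NormedSpace ℂ X] [CompleteSpace X]
        (K : Type v) [TopologicalSpace K] [CompactSpace K] [T2Space K],
        HasComplementedUFDD X → IsCalkinAlgebraOf C(K, ℂ) X →
          (∃ V : Set K, IsClopen V ∧
            ∃ f : V → {u : Ultrafilter ℕ // (u : Filter ℕ) ≤ Filter.cofinite},
              Continuous f ∧ Function.Surjective f) ∧ ¬ IsCCC K) ∧
    (∀ (X : Type u) [NormedAddCommGroup X] [NormedSpace ℂ X] [CompleteSpace X],
        HasComplementedUFDD X → ¬ IsCalkinAlgebraOf C(StoneCech ℕ, ℂ) X) := by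
  have main : ∀ (X : Type u) [NormedAddCommGroup X] [NormedSpace ℂ X] [CompleteSpace X]
        (K : Type v) [TopologicalSpace K] [CompactSpace K] [T2Space K],
        HasComplementedUFDD X → IsCalkinAlgebraOf C(K, ℂ) X →
          (∃ V : Set K, IsClopen V ∧
            ∃ f : V → {u : Ultrafilter ℕ // (u : Filter ℕ) ≤ Filter.cofinite},
              Continuous f ∧ Function.Surjective f) ∧ ¬ IsCCC K := by
    intro X _ _ _ K _ _ _ hX hK
    obtain ⟨U, h1, h2, h3, h4⟩ := exists_clopen_family hX hK
    exact ⟨exists_surjection U h1 h2 h3 h4, not_ccc U h1 h2 h4⟩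
  refine ⟨main, ?_⟩
  intro X _ _ _ hX hK
  obtain ⟨U, h1, h2, h3, h4⟩ := exists_clopen_family hX hK
  refine not_ccc U h1 h2 h4 ?_
  intro S hS hdisj
  have hsep : TopologicalSpace.SeparableSpace (StoneCech ℕ) :=
    denseRange_stoneCechUnit.separableSpace continuous_stoneCechUnit
  exact hdisj.countable_of_isOpen (fun U hU => (hS U hU).1) (fun U hU => (hS U hU).2)

end Pool.Agent.Results.MP_8d7136_an.UnconditionalCase
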